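import Pool.Agent.Y881.PG.Four

/-!
# MP_f6e9a2_nt (Paley graph conjecture): `U` additively structured, `V` multiplicatively structured

`|U| ≥ p^{1/2-c}`, `|V| ≥ p^ε`, `U` has few sums with some set of size `p^ε`, and `V` is nearly
invariant under multiplication by the elements of some set of size `p^ε`.
-/

namespace Pool.Agent.Results.MP_f6e9a2_nt.AddMultStructured

open scoped Pointwise

theorem result (ε : ℝ) (hε : 0 < ε) : ∃ c : ℝ, 0 < c ∧ ∃ δ : ℝ, 0 < δ ∧ ∃ p₀ : ℕ,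
    ∀ (p : ℕ) [Fact p.Prime], p₀ ≤ p → ∀ χ : DirichletCharacter ℂ p, χ ≠ 1 →
    ∀ U V A T : Finset (ZMod p), (p : ℝ) ^ (1 / 2 - c) ≤ U.card → (p : ℝ) ^ ε ≤ V.card →
      (p : ℝ) ^ ε ≤ A.card → (p : ℝ) ^ ε ≤ T.card →
      ((U + A).card : ℝ) ≤ (p : ℝ) ^ c * U.card →
      (∀ t ∈ T, t ≠ 0 ∧ ((V \ (t • V)).card : ℝ) ≤ (p : ℝ) ^ (-ε) * V.card) →
      ∑ u ∈ U, ‖∑ v ∈ V, χ (u + v)‖ ≤ (p : ℝ) ^ (-δ) * (U.card * V.card) :=
  Pool.Agent.Y881.PG.structured ε hε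

end Pool.Agent.Results.MP_f6e9a2_nt.AddMultStructured
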