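import Pool.Agent.Y881.PG.Four

/-!
# MP_f6e9a2_nt (Paley graph conjecture): sums `χ(a + s + t b)` over four sets, three of them tiny

For `|A|, |B|, |T| ≥ p^ε` and `|S| ≥ p^{1/2-c}`, `c = c(ε) > 0`, the sum of `|∑_b β_b χ(a + s + t b)|`
over `A × S × T` is at most `p^{-δ} |A||S||T||B|`.
-/

namespace Pool.Agent.Results.MP_f6e9a2_nt.FourSets

theorem result (ε : ℝ) (hε : 0 < ε) : ∃ c : ℝ, 0 < c ∧ ∃ δ : ℝ, 0 < δ ∧ ∃ p₀ : ℕ,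
    ∀ (p : ℕ) [Fact p.Prime], p₀ ≤ p → ∀ χ : DirichletCharacter ℂ p, χ ≠ 1 →
    ∀ (A B S T : Finset (ZMod p)) (β : ZMod p → ℂ), (p : ℝ) ^ ε ≤ A.card →
      (p : ℝ) ^ ε ≤ B.card → (p : ℝ) ^ ε ≤ T.card → (p : ℝ) ^ (1 / 2 - c) ≤ S.card →
      (∀ b, ‖β b‖ ≤ 1) →
      ∑ a ∈ A, ∑ s ∈ S, ∑ t ∈ T, ‖∑ b ∈ B, β b * χ (a + s + t * b)‖ ≤
        (p : ℝ) ^ (-δ) * (A.card * S.card * T.card * B.card) :=
  Pool.Agent.Y881.PG.four_sets ε hε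

end Pool.Agent.Results.MP_f6e9a2_nt.FourSets
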