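import Pool.Agent.Y881.PG.Sets

/-!
# MP_f6e9a2_nt (Paley graph conjecture): the bound holds for almost all Möbius images

For all sets `A, B` of size at least `p^ε`, the bound `|∑ χ(a + g b)| ≤ p^{-δ} |A| |B|` holds for all
maps `g b = x + y/(b+v)` (`y ≠ 0`) outside an exceptional set of at most
`min (p^{3/2-c}, p^{2+ε} / |A|)` maps.
-/

namespace Pool.Agent.Results.MP_f6e9a2_nt.MobiusImages

theorem result (ε : ℝ) (hε : 0 < ε) : ∃ c : ℝ, 0 < c ∧ ∃ δ : ℝ, 0 < δ ∧ ∃ p₀ : ℕ,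
    ∀ (p : ℕ) [Fact p.Prime], p₀ ≤ p → ∀ χ : DirichletCharacter ℂ p, χ ≠ 1 →
    ∀ A B : Finset (ZMod p), (p : ℝ) ^ ε ≤ A.card → (p : ℝ) ^ ε ≤ B.card →
      (({g : ZMod p × ZMod p × ZMod p | g.2.1 ≠ 0 ∧ (p : ℝ) ^ (-δ) * (A.card * B.card) <
          ‖∑ a ∈ A, ∑ b ∈ B, χ (a + (g.1 + g.2.1 / (b + g.2.2)))‖}.ncard : ℕ) : ℝ) ≤
        min ((p : ℝ) ^ (3 / 2 - c)) ((p : ℝ) ^ (2 + ε) / A.card) :=
  Pool.Agent.Y881.PG.mobius_final ε hε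

end Pool.Agent.Results.MP_f6e9a2_nt.MobiusImages
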